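import Pool.Agent.H84.NT.Targets3

/-!
# Module LGP: the constants of the small scale
-/

open MeasureTheory ProbabilityTheory Filter Topology
open scoped ENNReal

namespace Pool.Agent.H19.NT

open Pool.Agent.H99.NS Pool.Agent.H22.LPP Pool.Agent.H95.INS Pool.Agent.H84.NT

theorem pf_LGP : T_LGP := by
  intro hO1P hO2P hO2C hPRB hBA hBL q cs hq0 hq1 hcs hIA hIC hIB hIS hIL ε B hε hB
  obtain ⟨K1, hK1, hO1⟩ := hO1P hBA q hq0 hq1 (ε / 3) (by positivity)
  obtain ⟨K2, hK2, hO2⟩ := hO2P hBL q hq0 hq1 (ε / 3) (by positivity)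
  obtain ⟨A, H, Y, p₀, k₁, hA, hp₀, hk₁, hH, hmain⟩ := hPRB q cs hq0 hq1 hcs hIA hIC hIB hIS hIL
    (max K1 K2) B (ε / 3) (le_max_of_le_left hK1) hB (by positivity)
  refine ⟨A, max K1 K2, H, Y, p₀, max k₁ A.toNat, hA, hp₀, le_max_of_le_left hk₁, hH, ?_⟩
  intro k X hk hX1 hX2
  have hk1 : k₁ ≤ k := (le_max_left _ _).trans hk
  have hkA : A ≤ k := by
    have := (le_max_right k₁ A.toNat).trans hk
    omega
  have hk0 : 1 ≤ k := hk₁.trans hk1
  have h4k : 2 * A ≤ 4 ^ k := by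
    have h1 : k < 2 ^ k := Nat.lt_two_pow_self
    have h2 : 2 ≤ 2 ^ k := by
      calc 2 = 2 ^ 1 := (pow_one 2).symm
        _ ≤ 2 ^ k := Nat.pow_le_pow_right (by norm_num) hk0
    have h3 : (4 : ℤ) ^ k = 2 ^ k * 2 ^ k := by rw [← mul_pow]; norm_num
    have h1' : (k : ℤ) < 2 ^ k := by exact_mod_cast h1
    have h2' : (2 : ℤ) ≤ 2 ^ k := by exact_mod_cast h2
    rw [h3]
    nlinarith
  have h64 : (64 : ℤ) ^ k = 16 ^ k * 4 ^ k := by rw [← mul_pow]; norm_num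
  have hp16 : (0 : ℤ) < 16 ^ k := by positivity
  have hAk : A * 16 ^ k ≤ 32 * 64 ^ (k - 1) := by
    have h1 : (64 : ℤ) * 64 ^ (k - 1) = 64 ^ k := by
      rw [← pow_succ']
      congr 1
      omega
    have h2 : 16 ^ k * (2 * A) ≤ 16 ^ k * 4 ^ k := mul_le_mul_of_nonneg_left h4k hp16.le
    have h3 : A * 16 ^ k * 2 = 16 ^ k * (2 * A) := by ring
    omega
  have hX4 : 4 * X ≤ 64 ^ k := by
    have h1 : (2 : ℝ) ^ ((k : ℝ) / 4) ≤ 4 ^ k := by
      have h2 : (4 : ℝ) ^ k = (2 : ℝ) ^ (2 * (k : ℝ)) := by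
        rw [show (2 : ℝ) * k = ((2 * k : ℕ) : ℝ) by push_cast; ring, Real.rpow_natCast, pow_mul]
        norm_num
      rw [h2]
      apply Real.rpow_le_rpow_of_exponent_le (by norm_num)
      have : (0 : ℝ) ≤ k := Nat.cast_nonneg k
      linarith
    have h2 : (4 * X : ℝ) ≤ 64 ^ k := by
      refine hX2.trans ?_
      have h3 : (64 : ℝ) ^ k = 16 ^ k * 4 ^ k := by rw [← mul_pow]; norm_num
      rw [h3]
      exact mul_le_mul_of_nonneg_left h1 (by positivity)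
    exact_mod_cast h2
  have hX5 : X + A * 16 ^ k ≤ 32 * 64 ^ k := by
    have h1 : A * 16 ^ k ≤ X := by
      have : 0 ≤ A * 16 ^ k := by
        apply mul_nonneg <;> omega
      have e : 16 * A * 16 ^ k = 16 * (A * 16 ^ k) := by ring
      rw [e] at hX1
      omega
    have h2 : (0 : ℤ) ≤ 64 ^ k := by positivity
    omega
  obtain ⟨hok, hpH, hFC, hLO, -, -⟩ := hmain k X hk1 hX1 hX5
  refine ⟨hok, hAk, hpH, hLO, ?_⟩
  have a1 := hO1 k A X (max K1 K2) B H Y hk0 (le_max_left _ _)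
  have a2 := hO2 k A X (max K1 K2) B H Y hk0 (le_max_right _ _) hX2
  have a3 : (PE q).real {ω | ¬ FC (dat q k A (max K1 K2) B H Y X) ω} ≤ ε / 3 :=
    ENNReal.toReal_le_of_le_ofReal (by positivity) hFC
  have hsub : {ω | ¬ LG0 (dat q k A (max K1 K2) B H Y X) ω} ⊆
      ({ω | ¬ O1X (dat q k A (max K1 K2) B H Y X) ω} ∪
        {ω | ¬ O2 (dat q k A (max K1 K2) B H Y X) ω}) ∪
        {ω | ¬ FC (dat q k A (max K1 K2) B H Y X) ω} := by
    intro ω hω
    by_contra hcon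
    simp only [Set.mem_union, Set.mem_ofPred_eq, not_or, not_not] at hcon
    obtain ⟨⟨h1, h2⟩, h3⟩ := hcon
    obtain ⟨h4, h5⟩ := hO2C _ ω hok h1 h2
    exact hω ⟨h4, h5, h3⟩
  refine (measureReal_mono hsub (measure_ne_top _ _)).trans ?_
  refine (measureReal_union_le _ _).trans ?_
  have a4 := measureReal_union_le (μ := PE q) {ω | ¬ O1X (dat q k A (max K1 K2) B H Y X) ω}
    {ω | ¬ O2 (dat q k A (max K1 K2) B H Y X) ω}
  linarith

end Pool.Agent.H19.NT
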