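import Pool.Agent.H84.NT.Targets3

/-!
# Modules O1P, O2P: local goodness has large probability
-/

open MeasureTheory ProbabilityTheory Filter Topology
open scoped ENNReal

namespace Pool.Agent.H19.NT

open Pool.Agent.H99.NS Pool.Agent.H22.LPP Pool.Agent.H95.INS Pool.Agent.H84.NT

theorem tsum_int_le (f : ℤ → ℝ≥0∞) : ∑' i : ℤ, f i ≤ ∑' n : ℕ, (f n + f (-n)) := by
  have hs : Function.Surjective (fun p : ℕ × Bool => if p.2 then (p.1 : ℤ) else -(p.1 : ℤ)) := by
    intro i
    rcases le_total 0 i with hi | hi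
    · exact ⟨(i.toNat, true), by simp [hi]⟩
    · exact ⟨((-i).toNat, false), by simp [hi]⟩
  refine (ENNReal.tsum_le_tsum_comp_of_surjective hs f).trans ?_
  have h1 := ENNReal.tsum_prod (f := fun (a : ℕ) (b : Bool) => f (if b then (a : ℤ) else -(a : ℤ)))
  refine (le_of_eq h1).trans (le_of_eq ?_)
  refine tsum_congr fun n => ?_
  rw [tsum_bool]
  simp only [Bool.false_eq_true, if_false, if_true]
  rw [add_comm]

theorem tsum_half : ∑' i : ℤ, ENNReal.ofReal ((1 / 2 : ℝ) ^ i.natAbs) ≤ 4 := by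
  refine (tsum_int_le _).trans ?_
  simp only [Int.natAbs_natCast, Int.natAbs_neg]
  have h : ∀ n : ℕ, ENNReal.ofReal ((1 / 2 : ℝ) ^ n) = (2⁻¹ : ℝ≥0∞) ^ n := by
    intro n
    rw [ENNReal.ofReal_pow (by norm_num)]
    congr 1
    rw [one_div, ENNReal.ofReal_inv_of_pos (by norm_num)]
    norm_num
  simp only [h]
  rw [ENNReal.tsum_add, ENNReal.tsum_geometric, ENNReal.one_sub_inv_two, inv_inv]
  norm_num

theorem exists_round (W x : ℤ) (hW : 0 < W) : ∃ i : ℤ, |x - W * i| ≤ W ∧ W * |i| ≤ |x| := by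
  rcases le_total 0 x with hx | hx
  · refine ⟨x / W, ?_, ?_⟩
    · have h1 := Int.mul_ediv_add_emod x W
      have h2 := Int.emod_nonneg x hW.ne'
      have h3 := Int.emod_lt_of_pos x hW
      rw [abs_le]
      constructor <;> linarith
    · have h1 : 0 ≤ x / W := Int.ediv_nonneg hx hW.le
      rw [abs_of_nonneg h1, abs_of_nonneg hx]
      exact Int.mul_ediv_self_le hW.ne'
  · refine ⟨-((-x) / W), ?_, ?_⟩
    · have h1 := Int.mul_ediv_add_emod (-x) W
      have h2 := Int.emod_nonneg (-x) hW.ne'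
      have h3 := Int.emod_lt_of_pos (-x) hW
      rw [abs_le, mul_neg]
      constructor <;> linarith
    · have h1 : 0 ≤ (-x) / W := Int.ediv_nonneg (by linarith) hW.le
      rw [abs_neg, abs_of_nonneg h1, abs_of_nonpos hx]
      exact Int.mul_ediv_self_le hW.ne'

/-- a threshold for an exponential bound -/
theorem exists_K {C c ε : ℝ} (hC : 0 < C) (hc : 0 < c) (hε : 0 < ε) :
    ∃ K1 : ℝ, 0 ≤ K1 ∧ ∀ K, K1 ≤ K → C * Real.exp (-(c * K)) ≤ ε := by
  refine ⟨max 0 (Real.log (C / ε) / c), le_max_left _ _, fun K hK => ?_⟩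
  have h1 : Real.log (C / ε) / c ≤ K := (le_max_right _ _).trans hK
  rw [div_le_iff₀ hc] at h1
  have h2 : Real.exp (-(c * K)) ≤ ε / C := by
    calc Real.exp (-(c * K)) ≤ Real.exp (-Real.log (C / ε)) := by
          apply Real.exp_le_exp.2
          linarith
      _ = ε / C := by
          rw [Real.exp_neg, Real.exp_log (by positivity), inv_div]
  calc C * Real.exp (-(c * K)) ≤ C * (ε / C) := mul_le_mul_of_nonneg_left h2 hC.le
    _ = ε := by field_simp

theorem exp_le_half {a : ℝ} (ha : 1 ≤ a) (n : ℕ) : Real.exp (-(a * n)) ≤ (1 / 2) ^ n := by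
  have h1 : Real.exp (-(a * n)) = Real.exp (-a) ^ n := by
    rw [← Real.exp_nat_mul]
    congr 1
    ring
  rw [h1]
  apply pow_le_pow_left₀ (Real.exp_pos _).le
  calc Real.exp (-a) ≤ Real.exp (-1) := Real.exp_le_exp.2 (by linarith)
    _ ≤ 1 / 2 := by
        rw [Real.exp_neg, inv_le_comm₀ (Real.exp_pos _) (by norm_num)]
        have := Real.add_one_le_exp (1 : ℝ)
        norm_num at this ⊢
        linarith

theorem rpow13 (k : ℕ) : (((64 ^ k : ℕ) : ℝ)) ^ (1 / 3 : ℝ) = 4 ^ k := by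
  have h : (((64 ^ k : ℕ) : ℝ)) = ((4 : ℝ) ^ k) ^ (3 : ℝ) := by
    push_cast
    rw [show (3 : ℝ) = ((3 : ℕ) : ℝ) by norm_num, Real.rpow_natCast, ← pow_mul, mul_comm, pow_mul]
    norm_num
  rw [h, ← Real.rpow_mul (by positivity)]
  norm_num

theorem rpow23 (k : ℕ) : (((64 ^ k : ℕ) : ℝ)) ^ (2 / 3 : ℝ) = 16 ^ k := by
  have h : (((64 ^ k : ℕ) : ℝ)) = ((4 : ℝ) ^ k) ^ (3 : ℝ) := by
    push_cast
    rw [show (3 : ℝ) = ((3 : ℕ) : ℝ) by norm_num, Real.rpow_natCast, ← pow_mul, mul_comm, pow_mul]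
    norm_num
  rw [h, ← Real.rpow_mul (by positivity)]
  rw [show (3 : ℝ) * (2 / 3) = ((2 : ℕ) : ℝ) by norm_num, Real.rpow_natCast, ← pow_mul, mul_comm,
    pow_mul]
  norm_num

/-- from real bounds of the parts of a countable cover -/
theorem real_le_of_cover {ι : Type} [Countable ι] (q : ℝ) (S : Set Env) (E : ι → Set Env)
    (a : ι → ℝ) (B : ℝ) (hB : 0 ≤ B) (ha : ∀ i, 0 ≤ a i) (hS : S ⊆ ⋃ i, E i)
    (hE : ∀ i, (PE q).real (E i) ≤ a i) (hsum : ∑' i, ENNReal.ofReal (a i) ≤ ENNReal.ofReal B) :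
    (PE q).real S ≤ B := by
  apply ENNReal.toReal_le_of_le_ofReal hB
  refine (measure_mono hS).trans ((measure_iUnion_le _).trans (le_trans ?_ hsum))
  apply ENNReal.tsum_le_tsum
  intro i
  exact (ENNReal.le_ofReal_iff_toReal_le (measure_ne_top _ _) (ha i)).2 (hE i)

theorem pf_O1P : T_O1P := by
  intro hBA q hq0 hq1 ε hε
  obtain ⟨C, c, hC, hc, hb⟩ := hBA q hq0 hq1 (1 / 6400) (by norm_num)
  obtain ⟨K1, hK1, hK1'⟩ := exists_K (C := 4 * C) (c := c / 4) (by positivity) (by positivity) hε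
  refine ⟨max K1 (1 / c), le_max_of_le_left hK1, ?_⟩
  intro k A X K B H Y hk hK
  obtain ⟨k, rfl⟩ : ∃ k', k = k' + 1 := ⟨k - 1, by omega⟩
  have hKc : 1 ≤ c * K := by
    have h1 : 1 / c ≤ K := (le_max_right _ _).trans hK
    rw [div_le_iff₀ hc] at h1
    linarith
  have hK0 : 0 < K := by
    by_contra h
    push Not at h
    have := mul_nonpos_of_nonneg_of_nonpos hc.le h
    linarith
  obtain ⟨b, hbd⟩ : ∃ b : ℤ → Site, b = fun i => (-(2048 * 64 ^ k), 16 ^ (k + 2) * i) := ⟨_, rfl⟩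
  have hev := fun i : ℤ => hb (64 ^ (k + 2)) (Nat.one_le_pow _ _ (by norm_num)) (b i)
    (K / 4 * (1 + 16 * |(i : ℝ)|)) (by positivity)
  refine real_le_of_cover q _ _ (fun i : ℤ => C * Real.exp (-c * (K / 4 * (1 + 16 * |(i : ℝ)|)))) ε
    hε.le (fun i => by positivity) ?_ hev ?_
  · intro ω hω
    rw [Set.mem_ofPred_eq] at hω
    unfold O1X at hω
    push Not at hω
    obtain ⟨s, t, g, hs, hst, ht, hg, hlt⟩ := hω
    have hn : (dat q (k + 1) A K B H Y X).n = 8 * 64 ^ k := rfl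
    have hw : (dat q (k + 1) A K B H Y X).w = 16 ^ (k + 1) := rfl
    have hf : (dat q (k + 1) A K B H Y X).f = 4 ^ (k + 1) := rfl
    have hK' : (dat q (k + 1) A K B H Y X).K = K := rfl
    have hq' : (dat q (k + 1) A K B H Y X).q = q := rfl
    rw [hn] at hs ht
    rw [hn, hw, hf, hK', hq'] at hlt
    push_cast at hlt
    have hmax0 : 0 ≤ max |(g s : ℝ)| |(g t : ℝ)| := le_max_of_le_left (abs_nonneg _)
    have hlt' : s < t := by
      by_contra h
      have e : s = t := le_antisymm hst (not_lt.1 h)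
      subst e
      have h1 : wt ω s s g = 0 := by
        unfold wt
        simp
      have h2 : sp q (8 * (8 * 64 ^ k) / 100) s s g = 0 := by
        unfold sp
        simp
      rw [h1, h2] at hlt
      have : 0 ≤ K * 4 ^ (k + 1) * (1 + max |(g s : ℝ)| |(g s : ℝ)| / 16 ^ (k + 1)) := by positivity
      linarith
    have hconn : Conn (s, g s) (t, g t) g := ⟨hg, rfl, rfl⟩
    have hT := le_T ω (u := (s, g s)) (v := (t, g t)) hst hconn
    have hreach : Reach (s, g s) (t, g t) := hconn.reach hst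
    obtain ⟨W, hW⟩ : ∃ W : ℤ, W = 16 ^ (k + 2) := ⟨_, rfl⟩
    have hW0 : 0 < W := by rw [hW]; positivity
    -- choice of the window
    obtain ⟨i, hi1, hi2⟩ : ∃ i : ℤ, (|g s - W * i| ≤ W ∨ |g t - W * i| ≤ W) ∧
        (W : ℝ) * |(i : ℝ)| ≤ max |(g s : ℝ)| |(g t : ℝ)| := by
      rcases le_total |g s| |g t| with h | h
      · obtain ⟨i, h1, h2⟩ := exists_round W (g t) hW0
        refine ⟨i, Or.inr h1, le_max_of_le_right ?_⟩
        exact_mod_cast h2
      · obtain ⟨i, h1, h2⟩ := exists_round W (g s) hW0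
        refine ⟨i, Or.inl h1, le_max_of_le_left ?_⟩
        exact_mod_cast h2
    refine Set.mem_iUnion.2 ⟨i, (s, g s), (t, g t), ?_, hlt', ?_, hreach, ?_, ?_⟩
    · rw [hbd]
      show -(2048 * 64 ^ k) ≤ s
      omega
    · rw [hbd]
      show t ≤ -(2048 * 64 ^ k) + ((64 ^ (k + 2) : ℕ) : ℤ)
      push_cast
      rw [pow_add]
      omega
    · rw [rpow23, hbd]
      have e : (W : ℝ) = 16 ^ (k + 2) := by rw [hW]; push_cast; rfl
      rcases hi1 with h1 | h1
      · left
        unfold dx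
        simp only
        rw [← hW, ← e]
        exact_mod_cast h1
      · right
        unfold dx
        simp only
        rw [← hW, ← e]
        exact_mod_cast h1
    · rw [rpow13]
      refine le_trans ?_ hT
      refine le_trans ?_ hlt.le
      unfold sp
      have e1 : dt (s, g s) (t, g t) = ((t - s : ℤ) : ℝ) := rfl
      have e2 : dx (s, g s) (t, g t) = ((g t - g s : ℤ) : ℝ) := rfl
      have e3 : (1 / 6400 : ℝ) * ((64 ^ (k + 2) : ℕ) : ℝ) = 8 * (8 * 64 ^ k) / 100 := by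
        push_cast
        rw [pow_add]
        ring
      rw [e1, e2, e3]
      have e4 : K / 4 * (1 + 16 * |(i : ℝ)|) * 4 ^ (k + 2) ≤
          K * 4 ^ (k + 1) * (1 + max |(g s : ℝ)| |(g t : ℝ)| / 16 ^ (k + 1)) := by
        have h1 : 16 * |(i : ℝ)| ≤ max |(g s : ℝ)| |(g t : ℝ)| / 16 ^ (k + 1) := by
          rw [le_div_iff₀ (by positivity)]
          refine le_trans (le_of_eq ?_) hi2
          rw [hW]
          push_cast
          rw [pow_succ 16 (k + 1)]
          ring
        have h2 : (0 : ℝ) ≤ K * 4 ^ (k + 1) := by positivity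
        have h3 := mul_le_mul_of_nonneg_left (add_le_add_right h1 1) h2
        refine le_trans (le_of_eq ?_) h3
        rw [pow_succ 4 (k + 1)]
        ring
      linarith
  · have h1 : ∀ i : ℤ, ENNReal.ofReal (C * Real.exp (-c * (K / 4 * (1 + 16 * |(i : ℝ)|)))) ≤
        ENNReal.ofReal (C * Real.exp (-(c / 4 * K))) * ENNReal.ofReal ((1 / 2) ^ i.natAbs) := by
      intro i
      rw [← ENNReal.ofReal_mul (by positivity), mul_assoc]
      refine ENNReal.ofReal_le_ofReal (mul_le_mul_of_nonneg_left ?_ hC.le)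
      have e : (-c * (K / 4 * (1 + 16 * |(i : ℝ)|))) = -(c / 4 * K) + -(4 * (c * K) * (i.natAbs : ℝ)) := by
        rw [Nat.cast_natAbs, Int.cast_abs]
        ring
      rw [e, Real.exp_add]
      refine mul_le_mul_of_nonneg_left ?_ (Real.exp_pos _).le
      exact exp_le_half (by linarith) _
    refine (ENNReal.tsum_le_tsum h1).trans ?_
    rw [ENNReal.tsum_mul_left]
    refine (mul_le_mul_right tsum_half _).trans ?_
    have e4 : (4 : ℝ≥0∞) = ENNReal.ofReal 4 := by norm_num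
    rw [e4, ← ENNReal.ofReal_mul (by positivity)]
    refine ENNReal.ofReal_le_ofReal ?_
    have := hK1' K ((le_max_left _ _).trans hK)
    linarith

end Pool.Agent.H19.NT
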