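import Pool.Agent.H19.NT.O1P

/-!
# Module O2P: lower bounds for the local goodness
-/

open MeasureTheory ProbabilityTheory Filter Topology
open scoped ENNReal

namespace Pool.Agent.H19.NT

open Pool.Agent.H99.NS Pool.Agent.H22.LPP Pool.Agent.H95.INS Pool.Agent.H84.NT

theorem tsum_prod_half : ∑' p : ℤ × ℤ, ENNReal.ofReal ((1 / 2 : ℝ) ^ p.1.natAbs) *
    ENNReal.ofReal ((1 / 2 : ℝ) ^ p.2.natAbs) ≤ 16 := by
  rw [ENNReal.tsum_prod (f := fun a b : ℤ => ENNReal.ofReal ((1 / 2 : ℝ) ^ a.natAbs) *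
    ENNReal.ofReal ((1 / 2 : ℝ) ^ b.natAbs))]
  simp only [ENNReal.tsum_mul_left, ENNReal.tsum_mul_right]
  refine (mul_le_mul' tsum_half tsum_half).trans ?_
  norm_num

/-- one pair of levels -/
theorem lbd_prob {q C c : ℝ} (hC : 0 < C) (hc : 0 < c)
    (hb : ∀ L : ℕ, 1 ≤ L → ∀ b : Site, ∀ E : ℤ, |(E : ℝ)| ≤ XL L → ∀ Y : ℝ, 0 ≤ Y →
      (PE q).real {ω | ∃ x y : ℤ, Reach (b.1, x) (b.1 + L, y) ∧
        |((x - b.2 : ℤ) : ℝ)| ≤ (L : ℝ) ^ (2 / 3 : ℝ) ∧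
        |((y - (b.2 + E) : ℤ) : ℝ)| ≤ (L : ℝ) ^ (2 / 3 : ℝ) ∧
        T ω (b.1, x) (b.1 + L, y) ≤ par q (b.1, x) (b.1 + L, y) - Y * (L : ℝ) ^ (1 / 3 : ℝ)} ≤
      C * Real.exp (-c * Y ^ (3 / 2 : ℝ)))
    (k : ℕ) (A X : ℤ) (K B H Y : ℝ) (_hk : 1 ≤ k) (hK4 : 4 ≤ K) (hKc : 8 ≤ c * K)
    (hX : (4 * X : ℝ) ≤ 16 ^ k * 2 ^ ((k : ℝ) / 4)) (s t : ℤ) (L : ℕ) (hL : t = s + L)
    (h1L : 64 ^ k ≤ L) (hL2 : L ≤ 64 ^ (k + 1)) :
    (PE q).real {ω | ¬ LBd (dat q k A K B H Y X) ω s t} ≤ 16 * C * Real.exp (-(c / 4 * K)) := by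
  have hL0 : (0 : ℝ) ≤ L := Nat.cast_nonneg _
  have hL1 : 1 ≤ L := (Nat.one_le_pow _ _ (by norm_num)).trans h1L
  have hL13 : (L : ℝ) ^ (1 / 3 : ℝ) ≤ 4 ^ (k + 1) := by
    rw [← rpow13]
    exact Real.rpow_le_rpow hL0 (by exact_mod_cast hL2) (by norm_num)
  have hL23 : (16 : ℝ) ^ k ≤ (L : ℝ) ^ (2 / 3 : ℝ) := by
    rw [← rpow23]
    exact Real.rpow_le_rpow (by positivity) (by exact_mod_cast h1L) (by norm_num)
  have hXL : (16 : ℝ) ^ k * 2 ^ ((k : ℝ) / 4) ≤ XL L := by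
    unfold XL
    have h1 : ((64 ^ k : ℕ) : ℝ) ^ (17 / 24 : ℝ) ≤ (L : ℝ) ^ (17 / 24 : ℝ) :=
      Real.rpow_le_rpow (by positivity) (by exact_mod_cast h1L) (by norm_num)
    refine le_trans (le_of_eq ?_) h1
    have e1 : ((64 ^ k : ℕ) : ℝ) = (2 : ℝ) ^ (6 * (k : ℝ)) := by
      push_cast
      rw [show (6 : ℝ) * k = ((6 * k : ℕ) : ℝ) by push_cast; ring, Real.rpow_natCast, pow_mul]
      norm_num
    have e2 : (16 : ℝ) ^ k = (2 : ℝ) ^ (4 * (k : ℝ)) := by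
      rw [show (4 : ℝ) * k = ((4 * k : ℕ) : ℝ) by push_cast; ring, Real.rpow_natCast, pow_mul]
      norm_num
    rw [e1, e2, ← Real.rpow_mul (by norm_num), ← Real.rpow_add (by norm_num)]
    congr 1
    ring
  obtain ⟨W, hW⟩ : ∃ W : ℤ, W = 16 ^ k := ⟨_, rfl⟩
  have hW0 : 0 < W := by rw [hW]; positivity
  have hWr : (W : ℝ) = 16 ^ k := by rw [hW]; push_cast; rfl
  -- the events
  obtain ⟨Ev, hEv⟩ : ∃ Ev : ℤ × ℤ → Set Env, Ev = fun p => {ω | |((W * p.2 - W * p.1 : ℤ) : ℝ)| ≤ XL L ∧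
      ∃ x y : ℤ, Reach (s, x) (s + L, y) ∧
        |((x - W * p.1 : ℤ) : ℝ)| ≤ (L : ℝ) ^ (2 / 3 : ℝ) ∧
        |((y - (W * p.1 + (W * p.2 - W * p.1)) : ℤ) : ℝ)| ≤ (L : ℝ) ^ (2 / 3 : ℝ) ∧
        T ω (s, x) (s + L, y) ≤ par q (s, x) (s + L, y) -
          (K / 4 * (1 + max |(p.1 : ℝ)| |(p.2 : ℝ)|)) * (L : ℝ) ^ (1 / 3 : ℝ)} := ⟨_, rfl⟩
  have hm0 : ∀ p : ℤ × ℤ, 0 ≤ max |(p.1 : ℝ)| |(p.2 : ℝ)| := fun p =>
    le_max_of_le_left (abs_nonneg _)
  refine real_le_of_cover q _ Ev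
    (fun p : ℤ × ℤ => C * Real.exp (-(c * (K / 4 * (1 + max |(p.1 : ℝ)| |(p.2 : ℝ)|))))) _
    (by positivity) (fun i => by positivity) ?_ ?_ ?_
  · intro ω hω
    rw [Set.mem_ofPred_eq] at hω
    unfold LBd at hω
    push Not at hω
    obtain ⟨x, y, hx, hy, hr, hlt⟩ := hω
    have hw : (dat q k A K B H Y X).w = 16 ^ k := rfl
    have hf : (dat q k A K B H Y X).f = 4 ^ k := rfl
    have hK' : (dat q k A K B H Y X).K = K := rfl
    have hq' : (dat q k A K B H Y X).q = q := rfl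
    have hX' : (dat q k A K B H Y X).X = X := rfl
    rw [hX'] at hx hy
    rw [hw, hf, hK', hq', hL] at hlt
    rw [hL] at hr
    push_cast at hlt
    obtain ⟨i, hi1, hi2⟩ := exists_round W x hW0
    obtain ⟨i', hi1', hi2'⟩ := exists_round W y hW0
    rw [hEv]
    refine Set.mem_iUnion.2 ⟨(i, i'), ?_, x, y, hr, ?_, ?_, ?_⟩
    · show |((W * i' - W * i : ℤ) : ℝ)| ≤ XL L
      refine le_trans ?_ hXL
      have h1 : |W * i' - W * i| ≤ 2 * X := by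
        calc |W * i' - W * i| ≤ |W * i'| + |W * i| := abs_sub _ _
          _ = W * |i'| + W * |i| := by rw [abs_mul, abs_mul, abs_of_pos hW0]
          _ ≤ 2 * X := by linarith
      have h2 : |((W * i' - W * i : ℤ) : ℝ)| ≤ 2 * X := by exact_mod_cast h1
      have h3 : (0 : ℝ) ≤ X := by
        have := (abs_nonneg _).trans h2
        linarith
      linarith
    · refine le_trans ?_ hL23
      rw [← hWr]
      exact_mod_cast hi1
    · refine le_trans ?_ hL23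
      rw [← hWr]
      simp only [add_sub_cancel]
      exact_mod_cast hi1'
    · show T ω (s, x) (s + L, y) ≤ par q (s, x) (s + L, y) -
          (K / 4 * (1 + max |(i : ℝ)| |(i' : ℝ)|)) * (L : ℝ) ^ (1 / 3 : ℝ)
      refine hlt.le.trans ?_
      have h1 : max |(i : ℝ)| |(i' : ℝ)| ≤ max |(x : ℝ)| |(y : ℝ)| / 16 ^ k := by
        rw [le_div_iff₀ (by positivity), ← hWr]
        have h2 : (W : ℝ) * |(i : ℝ)| ≤ |(x : ℝ)| := by exact_mod_cast hi2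
        have h3 : (W : ℝ) * |(i' : ℝ)| ≤ |(y : ℝ)| := by exact_mod_cast hi2'
        have h4 : (0 : ℝ) < W := by exact_mod_cast hW0
        rw [max_mul_of_nonneg _ _ h4.le]
        apply max_le_max <;> linarith
      have h5 : K / 4 * (1 + max |(i : ℝ)| |(i' : ℝ)|) * (L : ℝ) ^ (1 / 3 : ℝ) ≤
          K / 4 * (1 + max |(i : ℝ)| |(i' : ℝ)|) * 4 ^ (k + 1) :=
        mul_le_mul_of_nonneg_left hL13 (by have := hm0 (i, i'); positivity)
      have h6 : K / 4 * (1 + max |(i : ℝ)| |(i' : ℝ)|) * 4 ^ (k + 1) =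
          K * 4 ^ k * (1 + max |(i : ℝ)| |(i' : ℝ)|) := by
        rw [pow_succ]
        ring
      have h7 : K * 4 ^ k * (1 + max |(i : ℝ)| |(i' : ℝ)|) ≤
          K * 4 ^ k * (1 + max |(x : ℝ)| |(y : ℝ)| / 16 ^ k) :=
        mul_le_mul_of_nonneg_left (by linarith) (by positivity)
      linarith
  · intro p
    have hY1 : 1 ≤ K / 4 * (1 + max |(p.1 : ℝ)| |(p.2 : ℝ)|) := by
      have := hm0 p
      nlinarith
    by_cases hE : |((W * p.2 - W * p.1 : ℤ) : ℝ)| ≤ XL L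
    · have h1 := hb L hL1 (s, W * p.1) (W * p.2 - W * p.1) hE
        (K / 4 * (1 + max |(p.1 : ℝ)| |(p.2 : ℝ)|)) (by linarith)
      have h2 : (PE q).real (Ev p) ≤ C * Real.exp (-c * (K / 4 * (1 + max |(p.1 : ℝ)|
          |(p.2 : ℝ)|)) ^ (3 / 2 : ℝ)) := by
        refine le_trans (measureReal_mono ?_ (measure_ne_top _ _)) h1
        rw [hEv]
        intro ω hω
        exact hω.2
      refine h2.trans (mul_le_mul_of_nonneg_left (Real.exp_le_exp.2 ?_) hC.le)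
      have h3 : K / 4 * (1 + max |(p.1 : ℝ)| |(p.2 : ℝ)|) ≤
          (K / 4 * (1 + max |(p.1 : ℝ)| |(p.2 : ℝ)|)) ^ (3 / 2 : ℝ) := by
        conv_lhs => rw [← Real.rpow_one (K / 4 * (1 + max |(p.1 : ℝ)| |(p.2 : ℝ)|))]
        exact Real.rpow_le_rpow_of_exponent_le hY1 (by norm_num)
      nlinarith
    · have : Ev p = ∅ := by
        rw [hEv]
        ext ω
        simp only [Set.mem_ofPred_eq, Set.mem_empty_iff_false, iff_false]
        intro h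
        exact hE h.1
      rw [this, measureReal_empty]
      positivity
  · have h1 : ∀ p : ℤ × ℤ, ENNReal.ofReal (C * Real.exp (-(c * (K / 4 * (1 + max |(p.1 : ℝ)|
        |(p.2 : ℝ)|))))) ≤ ENNReal.ofReal (C * Real.exp (-(c / 4 * K))) *
          (ENNReal.ofReal ((1 / 2) ^ p.1.natAbs) * ENNReal.ofReal ((1 / 2) ^ p.2.natAbs)) := by
      intro p
      rw [← ENNReal.ofReal_mul (by positivity), ← ENNReal.ofReal_mul (by positivity), mul_assoc]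
      refine ENNReal.ofReal_le_ofReal (mul_le_mul_of_nonneg_left ?_ hC.le)
      have h2 : (|(p.1 : ℝ)| + |(p.2 : ℝ)|) / 2 ≤ max |(p.1 : ℝ)| |(p.2 : ℝ)| := by
        have h3 := le_max_left |(p.1 : ℝ)| |(p.2 : ℝ)|
        have h4 := le_max_right |(p.1 : ℝ)| |(p.2 : ℝ)|
        linarith
      have e1 : ((p.1.natAbs : ℕ) : ℝ) = |(p.1 : ℝ)| := by rw [Nat.cast_natAbs, Int.cast_abs]
      have e2 : ((p.2.natAbs : ℕ) : ℝ) = |(p.2 : ℝ)| := by rw [Nat.cast_natAbs, Int.cast_abs]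
      have h5 : -(c * (K / 4 * (1 + max |(p.1 : ℝ)| |(p.2 : ℝ)|))) ≤
          -(c / 4 * K) + (-(c * K / 8 * (p.1.natAbs : ℝ)) + -(c * K / 8 * (p.2.natAbs : ℝ))) := by
        rw [e1, e2]
        have : 0 ≤ c * K := by linarith
        nlinarith
      refine (Real.exp_le_exp.2 h5).trans ?_
      rw [Real.exp_add, Real.exp_add]
      refine mul_le_mul_of_nonneg_left ?_ (Real.exp_pos _).le
      exact mul_le_mul (exp_le_half (by linarith) _) (exp_le_half (by linarith) _)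
        (Real.exp_pos _).le (by positivity)
    refine (ENNReal.tsum_le_tsum h1).trans ?_
    rw [ENNReal.tsum_mul_left]
    refine (mul_le_mul_right tsum_prod_half _).trans ?_
    have e4 : (16 : ℝ≥0∞) = ENNReal.ofReal 16 := by norm_num
    rw [e4, ← ENNReal.ofReal_mul (by positivity)]
    refine ENNReal.ofReal_le_ofReal (le_of_eq ?_)
    ring

theorem pf_O2P : T_O2P := by
  intro hBL q hq0 hq1 ε hε
  obtain ⟨C, c, hC, hc, hb⟩ := hBL q hq0 hq1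
  obtain ⟨K1, hK1, hK1'⟩ := exists_K (C := 16 * C) (c := c / 4) (ε := ε / 5) (by positivity)
    (by positivity) (by positivity)
  refine ⟨max (max K1 4) (8 / c), le_max_of_le_left (le_max_of_le_left hK1), ?_⟩
  intro k A X K B H Y hk hK hX
  have hKc : 8 ≤ c * K := by
    have h1 : 8 / c ≤ K := (le_max_right _ _).trans hK
    rw [div_le_iff₀ hc] at h1
    linarith
  have hK4 : 4 ≤ K := (le_max_right _ _).trans ((le_max_left _ _).trans hK)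
  have hKK : K1 ≤ K := (le_max_left _ _).trans ((le_max_left _ _).trans hK)
  have key := fun s t L hL h1 h2 => (lbd_prob hC hc hb k A X K B H Y hk hK4 hKc hX s t L hL h1
    h2).trans (hK1' K hKK)
  obtain ⟨k, rfl⟩ : ∃ k', k = k' + 1 := ⟨k - 1, by omega⟩
  have hn : (dat q (k + 1) A K B H Y X).n = 8 * 64 ^ k := rfl
  have hp : 0 < 64 ^ k := by positivity
  have c1 := key (-(256 * (8 * 64 ^ k))) (4 * (8 * 64 ^ k)) (2080 * 64 ^ k) (by push_cast; ring)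
    (by rw [pow_succ]; omega) (by rw [pow_succ, pow_succ]; omega)
  have c2 := key (-(4 * (8 * 64 ^ k))) (256 * (8 * 64 ^ k)) (2080 * 64 ^ k) (by push_cast; ring)
    (by rw [pow_succ]; omega) (by rw [pow_succ, pow_succ]; omega)
  have c3 := key (-(4 * (8 * 64 ^ k))) (4 * (8 * 64 ^ k)) (64 * 64 ^ k) (by push_cast; ring)
    (by rw [pow_succ]; omega) (by rw [pow_succ, pow_succ]; omega)
  have c4 := key (-(256 * (8 * 64 ^ k))) (-(4 * (8 * 64 ^ k))) (2016 * 64 ^ k) (by push_cast; ring)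
    (by rw [pow_succ]; omega) (by rw [pow_succ, pow_succ]; omega)
  have c5 := key (4 * (8 * 64 ^ k)) (256 * (8 * 64 ^ k)) (2016 * 64 ^ k) (by push_cast; ring)
    (by rw [pow_succ]; omega) (by rw [pow_succ, pow_succ]; omega)
  have hsub : {ω | ¬ O2 (dat q (k + 1) A K B H Y X) ω} ⊆
      ((({ω | ¬ LBd (dat q (k + 1) A K B H Y X) ω (-(256 * (8 * 64 ^ k))) (4 * (8 * 64 ^ k))} ∪
      {ω | ¬ LBd (dat q (k + 1) A K B H Y X) ω (-(4 * (8 * 64 ^ k))) (256 * (8 * 64 ^ k))}) ∪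
      {ω | ¬ LBd (dat q (k + 1) A K B H Y X) ω (-(4 * (8 * 64 ^ k))) (4 * (8 * 64 ^ k))}) ∪
      {ω | ¬ LBd (dat q (k + 1) A K B H Y X) ω (-(256 * (8 * 64 ^ k))) (-(4 * (8 * 64 ^ k)))}) ∪
      {ω | ¬ LBd (dat q (k + 1) A K B H Y X) ω (4 * (8 * 64 ^ k)) (256 * (8 * 64 ^ k))} := by
    intro ω hω
    by_contra hcon
    simp only [Set.mem_union, Set.mem_ofPred_eq, not_or, not_not] at hcon
    obtain ⟨⟨⟨⟨h1, h2⟩, h3⟩, h4⟩, h5⟩ := hcon
    exact hω ⟨h1, h2, h3, h4, h5⟩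
  refine (measureReal_mono hsub (measure_ne_top _ _)).trans ?_
  refine (measureReal_union_le _ _).trans ?_
  have a1 := measureReal_union_le (μ := PE q)
    (({ω | ¬ LBd (dat q (k + 1) A K B H Y X) ω (-(256 * (8 * 64 ^ k))) (4 * (8 * 64 ^ k))} ∪
      {ω | ¬ LBd (dat q (k + 1) A K B H Y X) ω (-(4 * (8 * 64 ^ k))) (256 * (8 * 64 ^ k))}) ∪
      {ω | ¬ LBd (dat q (k + 1) A K B H Y X) ω (-(4 * (8 * 64 ^ k))) (4 * (8 * 64 ^ k))})
      {ω | ¬ LBd (dat q (k + 1) A K B H Y X) ω (-(256 * (8 * 64 ^ k))) (-(4 * (8 * 64 ^ k)))}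
  have a2 := measureReal_union_le (μ := PE q)
    ({ω | ¬ LBd (dat q (k + 1) A K B H Y X) ω (-(256 * (8 * 64 ^ k))) (4 * (8 * 64 ^ k))} ∪
      {ω | ¬ LBd (dat q (k + 1) A K B H Y X) ω (-(4 * (8 * 64 ^ k))) (256 * (8 * 64 ^ k))})
      {ω | ¬ LBd (dat q (k + 1) A K B H Y X) ω (-(4 * (8 * 64 ^ k))) (4 * (8 * 64 ^ k))}
  have a3 := measureReal_union_le (μ := PE q)
    {ω | ¬ LBd (dat q (k + 1) A K B H Y X) ω (-(256 * (8 * 64 ^ k))) (4 * (8 * 64 ^ k))}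
      {ω | ¬ LBd (dat q (k + 1) A K B H Y X) ω (-(4 * (8 * 64 ^ k))) (256 * (8 * 64 ^ k))}
  linarith

end Pool.Agent.H19.NT
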